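import Mathlib

set_option autoImplicit false
open Set Filter Topology Asymptotics

namespace Pool.Agent.Results.MP_4d07cf_an.No

/-- n times differentiable at every point -/
def C (n : ℕ) (f : ℝ → ℝ) : Prop := ∀ j < n, Differentiable ℝ (iteratedDeriv j f)

/-- the limsup of the Hoelder quotient is infinite at every point, for every exponent -/
def NowhereHolder (g : ℝ → ℝ) : Prop :=
  ∀ x α : ℝ, 0 < α → ∀ M : ℝ, ∃ᶠ y in 𝓝[≠] x, M < |g y - g x| / |y - x| ^ α

/-- the class of the problem -/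
def A (n : ℕ) : Set (ℝ → ℝ) := {f | C n f ∧ NowhereHolder (iteratedDeriv n f)}

theorem baire (h : ℝ → ℝ) (hh : Differentiable ℝ h) : ∃ (x M : ℝ), ∀ᶠ y in 𝓝 x, |deriv h y| ≤ M := by
  obtain ⟨M, x, hx⟩ := nonempty_interior_of_iUnion_of_closed
    (f := fun M : ℕ => {x : ℝ | ∀ t : ℝ, |t| * M ≤ 1 → |h (x + t) - h x| ≤ M * |t|}) (fun M => by
      simp only [ofPred_forall]
      have := hh.continuous
      exact isClosed_iInter fun t => isClosed_iInter fun _ => isClosed_le (by fun_prop) (by fun_prop))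
    (by
      refine eq_univ_of_forall fun x => ?_
      obtain ⟨K, hK⟩ := (hh x).isBigO_sub.bound
      obtain ⟨δ, hδ, h1⟩ := Metric.eventually_nhds_iff.mp hK
      obtain ⟨M, hM⟩ := exists_nat_gt (|K| + 1 / δ)
      refine mem_iUnion.mpr ⟨M, fun t ht => ?_⟩
      have h2 : 1 / δ < M := by linarith [abs_nonneg K]
      rw [div_lt_iff₀ hδ] at h2
      have h3 : |t| < δ := by
        by_contra h3
        nlinarith [mul_le_mul_of_nonneg_right (not_lt.mp h3) (M.cast_nonneg : (0 : ℝ) ≤ M)]
      have := @h1 (x + t) (by simpa using h3)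
      simp only [Real.norm_eq_abs, add_sub_cancel_left] at this
      have : K ≤ M := by linarith [le_abs_self K, one_div_pos.mpr hδ]
      nlinarith [abs_nonneg t])
  refine ⟨x, M, ?_⟩
  filter_upwards [mem_interior_iff_mem_nhds.mp hx] with y hy
  refine norm_deriv_le_of_lip' (𝕜 := ℝ) (f := h) (x₀ := y) (Nat.cast_nonneg M) ?_
  have : ∀ᶠ z in 𝓝 y, |z - y| * M < 1 :=
    (show ContinuousAt (fun z => |z - y| * M) y by fun_prop).eventually (gt_mem_nhds (by simp))
  filter_upwards [this] with z hz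
  simpa using hy (z - y) hz.le

theorem key (n : ℕ) (v : ℝ → ℝ) (hv : C (n + 1) v) (x M : ℝ) (h0 : v x = 0)
    (hM : ∀ᶠ y in 𝓝 x, |iteratedDeriv (n + 1) v y| ≤ M) :
    (fun y => iteratedDeriv (n + 1) (v * v) y - iteratedDeriv (n + 1) (v * v) x) =O[𝓝 x]
      fun y => y - x := by
  have hc : ContDiff ℝ n v := contDiff_of_differentiable_iteratedDeriv (n := n) fun m hm =>
    hv m (Nat.lt_succ_of_le (by exact_mod_cast hm))
  have e : ∀ y, iteratedDeriv (n + 1) (v * v) y = ∑ i ∈ Finset.range (n + 1), n.choose i *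
      (iteratedDeriv (i + 1) v y * iteratedDeriv (n - i) v y +
        iteratedDeriv i v y * iteratedDeriv (n - i + 1) v y) := by
    intro y
    rw [iteratedDeriv_succ, show iteratedDeriv n (v * v) = _ from
      funext fun z => iteratedDeriv_mul (hc.contDiffAt (x := z)) hc.contDiffAt]
    refine (HasDerivAt.fun_sum fun i hi => ?_).deriv
    simp only [mul_assoc, iteratedDeriv_succ]
    exact ((hv i (Finset.mem_range.mp hi) y).hasDerivAt.mul (hv _ (by omega) y).hasDerivAt).const_mul _
  have pl : ∀ a b, a + b = n + 1 → (fun y => iteratedDeriv a v y * iteratedDeriv b v y -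
      iteratedDeriv a v x * iteratedDeriv b v x) =O[𝓝 x] fun y => y - x := by
    have h1 : (fun y => iteratedDeriv (n + 1) v y * v y) =O[𝓝 x] fun y => y - x := by
      have a := (hv 0 (by omega) x).isBigO_sub
      have b : iteratedDeriv (n + 1) v =O[𝓝 x] fun _ => (1 : ℝ) :=
        IsBigO.of_bound M (by simpa using hM)
      simpa [h0] using b.mul a
    intro a b hab
    rcases Nat.eq_zero_or_pos a with rfl | ha
    · obtain rfl : b = n + 1 := by omega
      simpa [h0, mul_comm] using h1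
    rcases Nat.eq_zero_or_pos b with rfl | hb
    · obtain rfl : a = n + 1 := by omega
      simpa [h0] using h1
    exact ((hv a (by omega) x).mul (hv b (by omega) x)).isBigO_sub
  simp only [e, ← Finset.sum_sub_distrib]
  refine IsBigO.fun_sum fun i hi => ?_
  have := Finset.mem_range.mp hi
  refine (((pl (i + 1) (n - i) (by omega)).add (pl i (n - i + 1) (by omega))).const_mul_left
    (n.choose i)).congr_left fun y => by ring

theorem main (n : ℕ) (f : ℝ → ℝ) (hf : C (n + 1) f) : ∃ c : ℝ, f * f - (2 * c) • f ∉ A (n + 1) := by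
  obtain ⟨x, M, h⟩ := baire _ (hf n (by omega))
  rw [← iteratedDeriv_succ] at h
  have e : ∀ (j : ℕ) (g : ℝ → ℝ) (c : ℝ), iteratedDeriv (j + 1) (fun z => c + g z) = iteratedDeriv (j + 1) g :=
    fun j g c => funext fun _ => iteratedDeriv_const_add (by omega) c
  have hv : C (n + 1) fun z => -f x + f z := by
    rintro (_ | j) hj
    · simpa using hf 0 hj
    · rw [e]; exact hf _ hj
  obtain ⟨K, hK⟩ := (key n _ hv x M (by simp) (by rwa [e])).bound
  refine ⟨f x, fun hA => ?_⟩
  have e2 : f * f - (2 * f x) • f =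
      fun z => -f x ^ 2 + ((fun z => -f x + f z) * fun z => -f x + f z) z := by
    funext z; simp; ring
  have h2 := hA.2 x 1 one_pos K
  rw [e2, e] at h2
  obtain ⟨y, h3, h4, h5⟩ := (h2.and_eventually 
    ((hK.filter_mono nhdsWithin_le_nhds).and self_mem_nhdsWithin)).exists
  rw [Real.rpow_one, lt_div_iff₀ (abs_pos.mpr (sub_ne_zero.mpr h5))] at h3
  exact h3.not_ge h4

theorem result (n : ℕ) (hn : 1 ≤ n) : ¬ ∃ X : Set (ℝ → ℝ), X.Nonempty ∧
    ∀ k, 1 ≤ k → ∀ P : MvPolynomial (Fin k) ℝ, P ≠ 0 → P.constantCoeff = 0 →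
      ∀ y : Fin k → ℝ → ℝ, Function.Injective y → (∀ i, y i ∈ X) →
        MvPolynomial.aeval y P ≠ 0 ∧ MvPolynomial.aeval y P ∈ A n := by
  obtain ⟨n, rfl⟩ : ∃ m, n = m + 1 := ⟨n - 1, by omega⟩
  rintro ⟨X, ⟨f, hf⟩, h⟩
  have h1 := (h 1 le_rfl (.X 0) (MvPolynomial.X_ne_zero _) (by simp) (fun _ => f)
    (Function.injective_of_subsingleton _) fun _ => hf).2
  simp only [MvPolynomial.aeval_X] at h1
  obtain ⟨c, hc⟩ := main n f h1.1
  have h2 := (h 1 le_rfl (.X 0 * .X 0 - (2 * c) • .X 0) (fun h0 => ?_) (by simp) (fun _ => f)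
    (Function.injective_of_subsingleton _) fun _ => hf).2
  · simp only [map_sub, map_mul, map_smul, MvPolynomial.aeval_X] at h2
    exact hc h2
  · have a := congrArg (MvPolynomial.eval fun _ => (1 : ℝ)) h0
    have b := congrArg (MvPolynomial.eval fun _ => (-1 : ℝ)) h0
    simp at a b
    linarith

end Pool.Agent.Results.MP_4d07cf_an.No
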